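import Pool.Agent.helper50.BS.SpecU

set_option autoImplicit false
set_option linter.unusedVariables false
set_option linter.dupNamespace false

open scoped Classical

noncomputable section

namespace Pool.Agent.helper50.BT

open Pool.Agent.helper81.PL

theorem UC7_mob {M n k l : ℕ} (T : BS.TR M n k l) (Z : Finset ℕ → T.Rˣ) :
    BS.mob Z ∅ = Z ∅ := by
  unfold BS.mob
  rw [Finset.powerset_empty, Finset.prod_singleton]
  simp

theorem UC7 (hUA1 : UA1_stmt) (hUA2 : UA2_stmt) (hUB5 : UB5_stmt) (hUB6 : UB6_stmt)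
    (hUC3 : UC3_stmt) (hUC5 : UC5_stmt) (hUC6 : UC6_stmt) (hTD4 : BS.TD4_stmt)
    (hTB1 : BS.TB1_stmt) : UC7_stmt := by
  intro N M n k E W PP Tl h T Z hH hZ P hP
  obtain ⟨hdl, -, -, -, -⟩ := hUA1 n E h
  have hpart : helper81.BS.IsPart W PP := hH.tight.1.1
  obtain ⟨-, hp2, hbeta⟩ := hUA2 n E W h PP hpart
  obtain ⟨hnd, hQ1, hQ2⟩ := hUC6 N M n k E W PP Tl h T hH
  have hbig := hH.big
  unfold Big at hbig
  have hN1 : (n + 1) * (k + 1) * (3 * k + 1) ≤ N :=
    le_trans (le_trans (Nat.le_add_left _ _) (Nat.le_add_right _ _)) hbig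
  have hN2 : M ≤ N := le_trans (Nat.le_add_left _ _) hbig
  -- the factor `Z ∅`
  have h1 : Rp T (ZT N M n k (3 * k) E Tl PP ∅) (Z ∅ : T.Rˣ) := by
    rw [hZ ∅]
    exact hUC3 N M n k E W PP Tl h T hH ∅ (Finset.empty_subset _) (by simp)
  -- the product
  set L := (QQ N n E W k PP).filter (fun Q => fsub (Q ∩ helper81.BS.dl n E W) P) with hL
  have hmem : ∀ Q ∈ L, Q ∈ QQ N n E W k PP ∧ Q ∩ helper81.BS.dl n E W ⊆ P := by
    intro Q hQ
    rw [hL, List.mem_filter] at hQ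
    exact ⟨hQ.1, of_decide_eq_true hQ.2⟩
  have h2 := (hUB6 N M n k (3 * k) T (Finset ℕ) L (fun Q => mT N M n k (3 * k) E Tl PP Q)
    (fun Q => ((BS.mob Z Q : T.Rˣ) : T.R)) hH.two hN1 hN2 (by
      intro Q hQ
      exact hUC5 N M n k E W PP Tl h T Z hH hZ Q (hQ1 Q (hmem Q hQ).1).1
        (hQ1 Q (hmem Q hQ).1).2.2)).1
  have h3 := hUB5 M n k (3 * k) T _ _ _ _ hH.two h1 h2
  -- the formula
  have h4 := hTD4 (ig n E h) T.R W (helper81.BS.beta n E W PP) P T.x T.y T.u k (3 * k) Z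
    (QQ N n E W k PP).toFinset ⟨n + 1, T.hx⟩ T.hy T.hu hZ
    (by
      intro Q hQ
      rw [List.mem_toFinset] at hQ
      exact ⟨(hQ1 Q hQ).1, (hQ1 Q hQ).2.1⟩)
    (by
      intro K hK h5 h6 h7 h8
      rw [List.mem_toFinset]
      exact hQ2 K hK h5 h6 h7 h8)
    (by
      rw [← hbeta]
      exact (hTB1 (ig n E h) PP.toFinset W hp2).1)
    (by rw [hdl]; exact hP)
  rw [hdl] at h4
  have h5 : (Z (helper81.BS.beta n E W PP \ (helper81.BS.dl n E W \ P)) : T.R) =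
      (Z ∅ : T.Rˣ) * (L.map (fun Q => ((BS.mob Z Q : T.Rˣ) : T.R))).prod := by
    rw [h4, UC7_mob, Units.val_mul, Units.coe_prod]
    congr 1
    rw [← List.prod_toFinset _ (hnd.filter _)]
    refine Finset.prod_congr ?_ fun _ _ => rfl
    ext Q
    rw [Finset.mem_filter, List.mem_toFinset, List.mem_toFinset, List.mem_filter]
    refine and_congr Iff.rfl ?_
    show _ ↔ decide _ = true
    rw [decide_eq_true_iff]
  rw [h5]
  exact h3

end Pool.Agent.helper50.BT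

end
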